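import Pool.Agent.helper41.HFE.Spec

/-!
# Project HFE (MP_3221a1_ag), row ROL: rows, the maximum is attained
-/

set_option autoImplicit false

open Polynomial Module Pool.Agent.HFN

namespace Pool.Agent.HFE

noncomputable section

/-- the multiplicity of a row with `m` points -/
def ROL_e (i m : ℕ) : ℕ := if i + 1 < m then 2 else if i + 1 < 2 * m then 1 else 0

theorem ROL_e_term (i m : ℕ) : max (2 * m - (i + 1)) (3 * m - 2 * (i + 1)) + (i + 1) * ROL_e i m ≤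
    (if 1 ≤ ROL_e i m then 2 * m else 0) + (if 2 ≤ ROL_e i m then m else 0) := by
  unfold ROL_e
  by_cases h1 : i + 1 < m
  · simp only [if_pos h1]
    norm_num
    omega
  · by_cases h2 : i + 1 < 2 * m
    · simp only [if_neg h1, if_pos h2]
      norm_num
      omega
    · simp only [if_neg h1, if_neg h2]
      norm_num
      omega

theorem ROL_e_le (i m : ℕ) : (i + 1) * ROL_e i m ≤ 2 * m := by
  unfold ROL_e
  split_ifs <;> omega

/-- the polynomial in `y` -/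
def ROL_P (i : ℕ) (S : Finset ℂ) (m : ℂ → ℕ) : ℂ[X] := ∏ y ∈ S, (X - C y) ^ ROL_e i (m y)

theorem ROL_P_ne (i : ℕ) (S : Finset ℂ) (m : ℂ → ℕ) : ROL_P i S m ≠ 0 :=
  Finset.prod_ne_zero_iff.2 fun y _ => pow_ne_zero _ (X_sub_C_ne_zero y)

theorem ROL_P_deg (i : ℕ) (S : Finset ℂ) (m : ℂ → ℕ) : (ROL_P i S m).natDegree = ∑ y ∈ S, ROL_e i (m y) := by
  unfold ROL_P
  rw [natDegree_prod _ _ fun y _ => pow_ne_zero _ (X_sub_C_ne_zero y)]
  refine Finset.sum_congr rfl fun y _ => ?_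
  rw [natDegree_pow, natDegree_X_sub_C, mul_one]

theorem ROL_P_dvd (i : ℕ) (S : Finset ℂ) (m : ℂ → ℕ) {y : ℂ} (hy : y ∈ S) {k : ℕ} (hk : k ≤ ROL_e i (m y)) :
    (X - C y) ^ k ∣ ROL_P i S m :=
  (pow_dvd_pow _ hk).trans (Finset.dvd_prod_of_mem (fun y => (X - C y) ^ ROL_e i (m y)) hy)

theorem ROL_P_eval (i : ℕ) (S : Finset ℂ) (m : ℂ → ℕ) {y : ℂ} (hy : y ∈ S) (hk : 1 ≤ ROL_e i (m y)) :
    (ROL_P i S m).eval y = 0 := by
  obtain ⟨Q, hQ⟩ := ROL_P_dvd i S m hy hk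
  rw [hQ, eval_mul, pow_one, eval_sub, eval_X, eval_C, sub_self, zero_mul]

theorem ROL_P_deriv (i : ℕ) (S : Finset ℂ) (m : ℂ → ℕ) {y : ℂ} (hy : y ∈ S) (hk : 2 ≤ ROL_e i (m y)) :
    (derivative (ROL_P i S m)).eval y = 0 := by
  obtain ⟨Q, hQ⟩ := ROL_P_dvd i S m hy hk
  rw [hQ, pow_two, mul_assoc, derivative_mul, eval_add, eval_mul, eval_mul, eval_mul, eval_sub, eval_X, eval_C,
    sub_self, zero_mul, zero_mul, mul_zero, add_zero]

theorem ROL_ev (P : ℂ[X]) (z : ℂ × ℂ) : ev z (sw (C P)) = P.eval z.2 := by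
  rw [ev_sw, ev_C]
  rfl

theorem ROL_Db (P : ℂ[X]) (z : ℂ × ℂ) (h1 : P.eval z.2 = 0) (h2 : (derivative P).eval z.2 = 0) : Db z (sw (C P)) := by
  rw [Db_sw]
  refine ⟨?_, ?_, ?_⟩
  · rw [ev_C]
    exact h1
  · rw [Dx_C, ev_C]
    exact h2
  · rw [Dy_C, ev_zero]

open Classical in
/-- counting the points in rows -/
theorem ROL_count (Z : Finset (ℂ × ℂ)) (p : ℂ × ℂ → Prop) (q : ℂ → Prop) (h : ∀ z ∈ Z, q z.2 → p z) :
    ∑ y ∈ Z.image Prod.snd, (if q y then mr Z y else 0) ≤ (Z.filter p).card := by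
  rw [Finset.card_eq_sum_card_fiberwise (f := Prod.snd) (t := Z.image Prod.snd) (fun z hz =>
    Finset.mem_coe.2 (Finset.mem_image_of_mem _ (Finset.mem_filter.1 (Finset.mem_coe.1 hz)).1))]
  refine Finset.sum_le_sum fun y _ => ?_
  by_cases hq : q y
  · rw [if_pos hq]
    unfold mr
    refine Finset.card_le_card fun z hz => ?_
    rw [Finset.mem_filter] at hz
    rw [Finset.mem_filter, Finset.mem_filter]
    exact ⟨⟨hz.1, h z hz.1 (by rw [hz.2]; exact hq)⟩, hz.2⟩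
  · rw [if_neg hq]
    exact Nat.zero_le _

open Classical in
theorem ROL_total (Z : Finset (ℂ × ℂ)) : ∑ y ∈ Z.image Prod.snd, mr Z y = Z.card := by
  rw [Finset.card_eq_sum_card_fiberwise (f := Prod.snd) (t := Z.image Prod.snd) (fun z hz =>
    Finset.mem_coe.2 (Finset.mem_image_of_mem _ (Finset.mem_coe.1 hz)))]
  rfl

open Classical in
theorem ROL : ROL_stmt := by
  intro Z i j hZ
  obtain ⟨P, hP⟩ : ∃ P, P = ROL_P i (Z.image Prod.snd) (mr Z) := ⟨_, rfl⟩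
  have hP0 : P ≠ 0 := by rw [hP]; exact ROL_P_ne _ _ _
  have hdY : dY (sw (C P)) = ∑ y ∈ Z.image Prod.snd, ROL_e i (mr Z y) := by
    rw [dY_sw, dX_C, hP, ROL_P_deg]
  obtain ⟨b, hb⟩ : ∃ b, b = ∑ y ∈ Z.image Prod.snd, ROL_e i (mr Z y) := ⟨_, rfl⟩
  have hb1 : (i + 1) * b ≤ 2 * Z.card := by
    rw [hb, ← ROL_total Z, Finset.mul_sum, Finset.mul_sum]
    exact Finset.sum_le_sum fun y _ => ROL_e_le i (mr Z y)
  have hb2 : b ≤ j + 1 := by
    have h1 : (i + 1) * b < (i + 1) * (j + 2) := lt_of_le_of_lt hb1 hZ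
    have h2 := lt_of_mul_lt_mul_left h1 (Nat.zero_le _)
    omega
  refine ⟨sw (C P), ?_, ?_, ?_, ?_⟩
  · intro h
    exact hP0 (C_eq_zero.1 ((map_eq_zero_iff sw sw.injective).1 h))
  · rw [dX_sw, dY_C]
  · rw [hdY, ← hb]
    exact hb2
  · have hchi : chi i j 0 (dY (sw (C P))) = (i + 1) * b := by
      rw [hdY, ← hb]
      unfold chi
      obtain ⟨c, hc⟩ := Nat.exists_eq_add_of_le hb2
      rw [hc, Nat.add_sub_cancel_left, Nat.sub_zero, mul_add, Nat.add_sub_cancel]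
    have h1 := ROL_count Z (fun z => ev z (sw (C P)) = 0) (fun y => 1 ≤ ROL_e i (mr Z y)) (fun z hz hq => by
      rw [ROL_ev, hP]
      exact ROL_P_eval _ _ _ (Finset.mem_image_of_mem _ hz) hq)
    have h2 := ROL_count Z (fun z => Db z (sw (C P))) (fun y => 2 ≤ ROL_e i (mr Z y)) (fun z hz hq => by
      refine ROL_Db P z ?_ ?_
      · rw [hP]
        exact ROL_P_eval _ _ _ (Finset.mem_image_of_mem _ hz) (le_trans one_le_two hq)
      · rw [hP]
        exact ROL_P_deriv _ _ _ (Finset.mem_image_of_mem _ hz) hq)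
    rw [hchi, hb]
    unfold La nn sg Aa
    refine le_trans ?_ (add_le_add (Nat.mul_le_mul_left 2 h1) h2)
    rw [Finset.mul_sum, Finset.mul_sum, ← Finset.sum_add_distrib, ← Finset.sum_add_distrib]
    refine Finset.sum_le_sum fun y _ => ?_
    have h3 := ROL_e_term i (mr Z y)
    refine h3.trans (add_le_add ?_ ?_)
    · split_ifs <;> omega
    · split_ifs <;> omega

end

end Pool.Agent.HFE
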